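import Pool.Agent.H97.PRP.Targets2

/-!
# Row ES: the number of the small subsets
-/

open Ordinal Cardinal Order Set
open scoped ZFSet

universe u

namespace Pool.Agent.H25.PRP

open _root_.HD HD.PRK HD.PRP

/-- the set coded by a function -/
noncomputable def cset (c μ : Ordinal.{u}) (f : μ.ToType → (succ c).ToType) : ZFSet.{u} :=
  ZFSet.sep (fun z => ∃ t : μ.ToType, (Ordinal.ToType.mk.symm (f t)).1 < c ∧
    z = (Ordinal.ToType.mk.symm (f t)).1.toZFSet) c.toZFSet

theorem pf_ES : T_ES.{u} := by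
  intro D K hD hK hDK hcl μ hμ c hc
  classical
  have hK0 : ℵ₀ ≤ K := (hD.trans hDK).le
  have hsc : succ c < K.ord := (Cardinal.isSuccLimit_ord hK0).succ_lt hc
  obtain ⟨κ, hκ⟩ : ∃ κ : Cardinal.{u}, κ = #(μ.ToType → (succ c).ToType) := ⟨_, rfl⟩
  have hκK : κ < K := by
    rw [hκ]
    have h1 := hcl (succ c).card (Cardinal.lt_ord.1 hsc) μ.card
      (lt_of_le_of_lt (Cardinal.ord_card_le μ) hμ)
    have h2 : #(μ.ToType → (succ c).ToType) = (succ c).card ^ μ.card := by
      rw [← Cardinal.mk_toType, ← Cardinal.mk_toType, Cardinal.power_def]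
    rw [h2]
    exact h1
  have h3 : #(κ.ord.ToType) = #(μ.ToType → (succ c).ToType) := by
    rw [Cardinal.mk_toType, Cardinal.card_ord, hκ]
  obtain ⟨e⟩ := Cardinal.eq.1 h3
  refine ⟨κ.ord, Cardinal.ord_lt_ord.2 hκK, fun i => if h : i < κ.ord then
    cset c μ (e (Ordinal.ToType.mk ⟨i, h⟩)) else ∅, ?_⟩
  rintro s hs ⟨h, hh⟩
  obtain ⟨f, hf⟩ : ∃ f : μ.ToType → (succ c).ToType, ∀ t : μ.ToType,
      (Ordinal.ToType.mk.symm (f t)).1 =
        if (h (Ordinal.ToType.mk.symm t).1).toZFSet ∈ s then h (Ordinal.ToType.mk.symm t).1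
        else c := by
    have h4 : ∀ t : μ.ToType, (if (h (Ordinal.ToType.mk.symm t).1).toZFSet ∈ s then
        h (Ordinal.ToType.mk.symm t).1 else c) < succ c := by
      intro t
      split_ifs with h5
      · obtain ⟨b, hb, hb2⟩ := mem_toZFSet_iff.1 (hs h5)
        have h6 := toZFSet_injective hb2
        rw [← h6]
        exact hb.trans (lt_succ c)
      · exact lt_succ c
    refine ⟨fun t => Ordinal.ToType.mk ⟨_, h4 t⟩, fun t => ?_⟩
    simp
  have hcs : cset c μ f = s := by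
    unfold cset
    ext z
    rw [ZFSet.mem_sep]
    constructor
    · rintro ⟨-, t, ht, hz⟩
      rw [hf t] at ht hz
      split_ifs at ht hz with h5
      · rw [hz]
        exact h5
      · exact absurd ht (lt_irrefl _)
    · intro hz
      refine ⟨hs hz, ?_⟩
      obtain ⟨a, ha, ha2⟩ := mem_toZFSet_iff.1 (hs hz)
      subst ha2
      obtain ⟨i, hi, hia⟩ := hh a hz
      refine ⟨Ordinal.ToType.mk ⟨i, hi⟩, ?_⟩
      have h5 : (Ordinal.ToType.mk.symm (f (Ordinal.ToType.mk ⟨i, hi⟩))).1 = a := by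
        rw [hf]
        simp [hia, hz]
      rw [h5]
      exact ⟨ha, rfl⟩
  refine ⟨(Ordinal.ToType.mk.symm (e.symm f)).1, (Ordinal.ToType.mk.symm (e.symm f)).2, ?_⟩
  have h6 : (Ordinal.ToType.mk.symm (e.symm f)).1 < κ.ord := (Ordinal.ToType.mk.symm (e.symm f)).2
  simp only [h6, dif_pos]
  have h7 : (Ordinal.ToType.mk ⟨(Ordinal.ToType.mk.symm (e.symm f)).1, h6⟩ : κ.ord.ToType) =
      e.symm f := by simp
  rw [h7, Equiv.apply_symm_apply, hcs]

end Pool.Agent.H25.PRP
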