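import Pool.Agent.H97.PRP.Targets2

/-!
# Row VDO: the second capturing set is ordinal definable

As `Pool/Agent/H91/PRP/DDO.lean` (helper91), whose private lemmas are copied.
-/

open Ordinal Cardinal Order Set
open scoped ZFSet

universe u

namespace Pool.Agent.H25.PRP

open _root_.HD HD.PRK HD.PRP

/-- the predicate about the sections -/
private def QQ (μ ρ : Ordinal.{u}) (F n Y : ZFSet.{u}) : Prop :=
  μ.toZFSet.IsOrdinal ∧ ρ.toZFSet.IsOrdinal ∧ n.IsOrdinal ∧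
    PosX μ.toZFSet.rank ρ.toZFSet.rank (fun x => Agr F x n.rank {a | a.toZFSet ∈ Y})

private theorem qq_dz (h0 : T_LOP.{u}) (μ ρ : Ordinal.{u}) :
    DZ.{u} fun v => QQ μ ρ (v 0) (v 1) (v 2) := by
  have a1 : DZ.{u} fun v => μ.toZFSet.IsOrdinal ∧ (v 0).IsOrdinal ∧ (v 2).IsOrdinal ∧
      PosX μ.toZFSet.rank (v 0).rank (fun x => Agr (v 1) x (v 2).rank {a | a.toZFSet ∈ v 3}) :=
    DZ.od (R := fun b v => b.IsOrdinal ∧ (v 0).IsOrdinal ∧ (v 2).IsOrdinal ∧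
      PosX b.rank (v 0).rank (fun x => Agr (v 1) x (v 2).rank {a | a.toZFSet ∈ v 3}))
      (OD.ordinal μ) h0.dz
  exact DZ.od (R := fun b v => μ.toZFSet.IsOrdinal ∧ b.IsOrdinal ∧ (v 1).IsOrdinal ∧
      PosX μ.toZFSet.rank b.rank (fun x => Agr (v 0) x (v 1).rank {a | a.toZFSet ∈ v 2}))
      (OD.ordinal ρ) a1

private theorem qq_iff (μ ρ n : Ordinal.{u}) (F Y : ZFSet.{u}) : QQ μ ρ F n.toZFSet Y ↔
    PosX μ ρ (fun x => Agr F x n {a | a.toZFSet ∈ Y}) := by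
  unfold QQ
  rw [rank_toZFSet, rank_toZFSet, rank_toZFSet]
  exact ⟨fun h => h.2.2.2, fun h => ⟨ZFSet.isOrdinal_toZFSet _, ZFSet.isOrdinal_toZFSet _,
    ZFSet.isOrdinal_toZFSet _, h⟩⟩

/-- the predicate about the number of the splitting points -/
private def FW (δ μ κ : Ordinal.{u}) (F : ZFSet.{u}) : Prop :=
  μ.toZFSet.IsOrdinal ∧ κ.toZFSet.IsOrdinal ∧ κ.toZFSet.IsOrdinal ∧ δ.toZFSet.IsOrdinal ∧
    Few δ.toZFSet.rank {i | i < κ.toZFSet.rank ∧ Spl μ.toZFSet.rank κ.toZFSet.rank F i}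

private theorem fw_dz (h : T_LFW.{u}) (δ μ κ : Ordinal.{u}) : DZ.{u} fun v => FW δ μ κ (v 0) := by
  have a0 : DZ.{u} fun v => (v 0).IsOrdinal ∧ (v 1).IsOrdinal ∧ (v 2).IsOrdinal ∧
      (v 3).IsOrdinal ∧ Few (v 3).rank {i | i < (v 2).rank ∧ Spl (v 0).rank (v 1).rank (v 4) i} :=
    h.dz.ren fun n => if n = 0 then 0 else if n = 1 then 1 else if n = 2 then 4 else
      if n = 3 then 2 else 3
  have a1 : DZ.{u} fun v => μ.toZFSet.IsOrdinal ∧ (v 0).IsOrdinal ∧ (v 1).IsOrdinal ∧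
      (v 2).IsOrdinal ∧ Few (v 2).rank
        {i | i < (v 1).rank ∧ Spl μ.toZFSet.rank (v 0).rank (v 3) i} :=
    DZ.od (R := fun b v => b.IsOrdinal ∧ (v 0).IsOrdinal ∧ (v 1).IsOrdinal ∧
      (v 2).IsOrdinal ∧ Few (v 2).rank {i | i < (v 1).rank ∧ Spl b.rank (v 0).rank (v 3) i})
      (OD.ordinal μ) a0
  have a2 : DZ.{u} fun v => μ.toZFSet.IsOrdinal ∧ κ.toZFSet.IsOrdinal ∧ (v 0).IsOrdinal ∧
      (v 1).IsOrdinal ∧ Few (v 1).rank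
        {i | i < (v 0).rank ∧ Spl μ.toZFSet.rank κ.toZFSet.rank (v 2) i} :=
    DZ.od (R := fun b v => μ.toZFSet.IsOrdinal ∧ b.IsOrdinal ∧ (v 0).IsOrdinal ∧
      (v 1).IsOrdinal ∧ Few (v 1).rank
        {i | i < (v 0).rank ∧ Spl μ.toZFSet.rank b.rank (v 2) i})
      (OD.ordinal κ) a1
  have a3 : DZ.{u} fun v => μ.toZFSet.IsOrdinal ∧ κ.toZFSet.IsOrdinal ∧ κ.toZFSet.IsOrdinal ∧
      (v 0).IsOrdinal ∧ Few (v 0).rank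
        {i | i < κ.toZFSet.rank ∧ Spl μ.toZFSet.rank κ.toZFSet.rank (v 1) i} :=
    DZ.od (R := fun b v => μ.toZFSet.IsOrdinal ∧ κ.toZFSet.IsOrdinal ∧ b.IsOrdinal ∧
      (v 0).IsOrdinal ∧ Few (v 0).rank
        {i | i < b.rank ∧ Spl μ.toZFSet.rank κ.toZFSet.rank (v 1) i})
      (OD.ordinal κ) a2
  exact DZ.od (R := fun b v => μ.toZFSet.IsOrdinal ∧ κ.toZFSet.IsOrdinal ∧
      κ.toZFSet.IsOrdinal ∧ b.IsOrdinal ∧ Few b.rank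
        {i | i < κ.toZFSet.rank ∧ Spl μ.toZFSet.rank κ.toZFSet.rank (v 0) i})
      (OD.ordinal δ) a3

private theorem fw_iff (δ μ κ : Ordinal.{u}) (F : ZFSet.{u}) : FW δ μ κ F ↔
    Few δ (SpS μ κ F) := by
  unfold FW SpS
  rw [rank_toZFSet, rank_toZFSet, rank_toZFSet]
  exact ⟨fun h => h.2.2.2.2, fun h => ⟨ZFSet.isOrdinal_toZFSet _, ZFSet.isOrdinal_toZFSet _,
    ZFSet.isOrdinal_toZFSet _, ZFSet.isOrdinal_toZFSet _, h⟩⟩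

private theorem lim_iff (a : Ordinal.{u}) : IsSuccLimit a ↔ (∃ z, z ∈ a.toZFSet) ∧
    ∀ z ∈ a.toZFSet, ∃ z' ∈ a.toZFSet, z ∈ z' := by
  constructor
  · intro h
    refine ⟨⟨(0 : Ordinal.{u}).toZFSet, toZFSet_mem_toZFSet_iff.2 ?_⟩, fun z hz => ?_⟩
    · rw [Ordinal.isSuccLimit_iff] at h
      exact pos_iff_ne_zero.2 h.1
    · obtain ⟨b, hb, rfl⟩ := mem_toZFSet_iff.1 hz
      exact ⟨(succ b).toZFSet, toZFSet_mem_toZFSet_iff.2 (h.succ_lt hb),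
        toZFSet_mem_toZFSet_iff.2 (lt_succ b)⟩
  · rintro ⟨⟨z, hz⟩, h⟩
    obtain ⟨b, hb, rfl⟩ := mem_toZFSet_iff.1 hz
    rw [Ordinal.isSuccLimit_iff]
    refine ⟨(lt_of_le_of_lt zero_le hb).ne', ?_⟩
    rw [isSuccPrelimit_iff_succ_lt]
    intro c hc
    obtain ⟨z', hz', hcz⟩ := h c.toZFSet (toZFSet_mem_toZFSet_iff.2 hc)
    obtain ⟨c', hc', rfl⟩ := mem_toZFSet_iff.1 hz'
    exact (succ_le_of_lt (toZFSet_mem_toZFSet_iff.1 hcz)).trans_lt hc'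

/-- the predicate `Po2`, at the level of sets -/
private def PZ (δ μ κ : Ordinal.{u}) (G k w Y : ZFSet.{u}) : Prop :=
  ∃ A ∈ k, ((∃ z, z ∈ A) ∧ ∀ z ∈ A, ∃ z' ∈ A, z ∈ z') ∧ (∀ z, z ∈ A ↔ ∃ y ∈ w, z ∈ y) ∧
    (∀ z ∈ Y, z ∈ A) ∧ ∃ J, (∀ z, z ∈ J ↔ z ∈ w ∧ z ∈ A) ∧ ∃ F, F = Fs κ G J ∧
      FW δ μ κ F ∧ ∀ n ∈ A, QQ μ κ F n Y

private theorem pz_iff (δ μ κ : Ordinal.{u}) (G w Y : ZFSet.{u}) :
    Po2 δ μ κ G w Y ↔ PZ δ μ κ G κ.toZFSet w Y := by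
  constructor
  · rintro ⟨a, ha, hl, hu, hF, hY, hP⟩
    refine ⟨a.toZFSet, toZFSet_mem_toZFSet_iff.2 ha, (lim_iff a).1 hl, fun z => ?_,
      fun z hz => hY hz, w ∩ a.toZFSet, fun z => ZFSet.mem_inter, _, rfl,
      (fw_iff δ μ κ _).2 hF, fun n hn => ?_⟩
    · rw [hu, ZFSet.mem_sUnion]
    · obtain ⟨n, hn', rfl⟩ := mem_toZFSet_iff.1 hn
      exact (qq_iff μ κ n _ Y).2 (hP n hn')
  · rintro ⟨A, hA, hl, hu, hY, J, hJ, F, rfl, hF, hP⟩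
    obtain ⟨a, ha, rfl⟩ := mem_toZFSet_iff.1 hA
    have hJ' : J = w ∩ a.toZFSet := by
      ext z
      rw [hJ, ZFSet.mem_inter]
    subst hJ'
    refine ⟨a, ha, (lim_iff a).2 hl, ?_, (fw_iff δ μ κ _).1 hF, fun z hz => hY z hz,
      fun n hn => ?_⟩
    · ext z
      rw [hu, ZFSet.mem_sUnion]
    · exact (qq_iff μ κ n _ Y).1 (hP n.toZFSet (toZFSet_mem_toZFSet_iff.2 hn))

private theorem pz_dz (h0 : T_LOP.{u}) (h1 : T_LFW.{u}) (h2 : T_FS.{u}) (δ μ κ : Ordinal.{u})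
    {G : ZFSet.{u}} (hG : OD G) : DZ.{u} fun v => PZ δ μ κ G (v 0) (v 1) (v 2) := by
  refine DZ.exMem (R := fun A v => ((∃ z, z ∈ A) ∧ ∀ z ∈ A, ∃ z' ∈ A, z ∈ z') ∧
    (∀ z, z ∈ A ↔ ∃ y ∈ v 1, z ∈ y) ∧ (∀ z ∈ v 2, z ∈ A) ∧
    ∃ J, (∀ z, z ∈ J ↔ z ∈ v 1 ∧ z ∈ A) ∧ ∃ F, F = Fs κ G J ∧
      FW δ μ κ F ∧ ∀ n ∈ A, QQ μ κ F n (v 2)) 0 ?_
  refine DZ.and (DZ.and (DZ.ex (DZ.mem 0 1)) (DZ.allMem 0 (DZ.exMem 1 (DZ.mem 1 0))))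
    (DZ.and (DZ.all ((DZ.mem 0 1).iff (DZ.exMem 3 (DZ.mem 1 0))))
      (DZ.and (DZ.allMem 3 (DZ.mem 0 1)) ?_))
  refine DZ.ex (R := fun J v => (∀ z, z ∈ J ↔ z ∈ v 2 ∧ z ∈ v 0) ∧ ∃ F, F = Fs κ G J ∧
      FW δ μ κ F ∧ ∀ n ∈ v 0, QQ μ κ F n (v 3)) ?_
  refine DZ.and (DZ.all ((DZ.mem 0 1).iff ((DZ.mem 0 4).and (DZ.mem 0 2)))) ?_
  refine DZ.ex (R := fun F v => F = Fs κ G (v 0) ∧ FW δ μ κ F ∧ ∀ n ∈ v 1, QQ μ κ F n (v 4)) ?_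
  refine DZ.and (h2 κ G hG) (DZ.and (fw_dz h1 δ μ κ) ?_)
  refine DZ.allMem (R := fun n v => QQ μ κ (v 0) n (v 5)) 2 ?_
  exact (qq_dz h0 μ κ).ren fun n => if n = 0 then 1 else if n = 1 then 0 else 6

/-- to be small, at the level of sets -/
private def CV (m w : ZFSet.{u}) : Prop := ∃ g : ZFSet.{u},
  (∀ a x x', ZFSet.pair a x ∈ g → ZFSet.pair a x' ∈ g → x = x') ∧
    ∀ x ∈ w, x.IsOrdinal → ∃ a ∈ m, ZFSet.pair a x ∈ g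

private theorem cv_iff (μ : Ordinal.{u}) (w : ZFSet.{u}) :
    (∃ h : Ordinal.{u} → Ordinal.{u}, ∀ a : Ordinal.{u}, a.toZFSet ∈ w → ∃ i < μ, h i = a) ↔
      CV μ.toZFSet w := by
  constructor
  · rintro ⟨h, hh⟩
    refine ⟨ZFSet.sep (fun z => ∃ i : Ordinal.{u}, z = ZFSet.pair i.toZFSet (h i).toZFSet)
      (ZFSet.prod μ.toZFSet w), ?_, ?_⟩
    · intro a x x' h1 h2
      rw [ZFSet.mem_sep] at h1 h2
      obtain ⟨-, i, hi⟩ := h1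
      obtain ⟨-, i', hi'⟩ := h2
      obtain ⟨e1, e2⟩ := ZFSet.pair_inj.1 hi
      obtain ⟨e1', e2'⟩ := ZFSet.pair_inj.1 hi'
      have h3 : i = i' := toZFSet_injective (e1.symm.trans e1')
      rw [e2, e2', h3]
    · intro x hx hxo
      obtain ⟨a, rfl⟩ : ∃ a : Ordinal.{u}, x = a.toZFSet := ⟨x.rank, hxo.toZFSet_rank_eq.symm⟩
      obtain ⟨i, hi, hia⟩ := hh a hx
      refine ⟨i.toZFSet, toZFSet_mem_toZFSet_iff.2 hi, ?_⟩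
      rw [ZFSet.mem_sep]
      refine ⟨ZFSet.pair_mem_prod.2 ⟨toZFSet_mem_toZFSet_iff.2 hi, hx⟩, i, by rw [hia]⟩
  · rintro ⟨g, h1, h2⟩
    classical
    refine ⟨fun i => if h : ∃ a : Ordinal.{u}, ZFSet.pair i.toZFSet a.toZFSet ∈ g then
      Classical.choose h else 0, fun a ha => ?_⟩
    obtain ⟨z, hz, hp⟩ := h2 a.toZFSet ha (ZFSet.isOrdinal_toZFSet _)
    obtain ⟨i, hi, rfl⟩ := mem_toZFSet_iff.1 hz
    refine ⟨i, hi, ?_⟩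
    have hex : ∃ a : Ordinal.{u}, ZFSet.pair i.toZFSet a.toZFSet ∈ g := ⟨a, hp⟩
    simp only [hex, dif_pos]
    exact toZFSet_injective (h1 _ _ _ (Classical.choose_spec hex) hp)

private theorem cv_dz (i j : ℕ) : DZ.{u} fun v => CV (v i) (v j) := by
  refine DZ.ex (R := fun g v => (∀ a x x', ZFSet.pair a x ∈ g → ZFSet.pair a x' ∈ g → x = x') ∧
    ∀ x ∈ v j, x.IsOrdinal → ∃ a ∈ v i, ZFSet.pair a x ∈ g) ?_
  refine DZ.and (DZ.all (DZ.all (DZ.all (((loc_pmem 2 1 3).dz.imp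
          ((loc_pmem 2 0 3).dz.imp (DZ.eq 1 0))))))) ?_
  exact DZ.allMem _ ((DZ.ord 0).imp (DZ.exMem (i + 2) (loc_pmem 0 1 2).dz))

/-- the predicate `Bnd`, at the level of sets -/
private def BZ (w B : ZFSet.{u}) : Prop := ∃ c ∈ B, ∀ b ∈ B, b ∈ w → b ∈ c ∨ b = c

private theorem bz_iff (w : ZFSet.{u}) (b : Ordinal.{u}) : Bnd w b ↔ BZ w b.toZFSet := by
  constructor
  · rintro ⟨c, hc, h⟩
    refine ⟨c.toZFSet, toZFSet_mem_toZFSet_iff.2 hc, fun z hz hzw => ?_⟩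
    obtain ⟨b', hb', rfl⟩ := mem_toZFSet_iff.1 hz
    rcases (h b' hb' hzw).lt_or_eq with h1 | h1
    · exact Or.inl (toZFSet_mem_toZFSet_iff.2 h1)
    · exact Or.inr (by rw [h1])
  · rintro ⟨c, hc, h⟩
    obtain ⟨c, hc', rfl⟩ := mem_toZFSet_iff.1 hc
    refine ⟨c, hc', fun b' hb' hb'w => ?_⟩
    rcases h b'.toZFSet (toZFSet_mem_toZFSet_iff.2 hb') hb'w with h1 | h1
    · exact (toZFSet_mem_toZFSet_iff.1 h1).le
    · exact (toZFSet_injective h1).le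

/-- the predicate `Val`, at the level of sets -/
private def VZ (δ μ κ : Ordinal.{u}) (G m k w Y : ZFSet.{u}) : Prop :=
  CV m w ∧ (∀ z ∈ Y, ∃ y ∈ w, z ∈ y) ∧ ∀ B ∈ w, B.IsOrdinal → BZ w B →
    ∃ W' Y', (∀ z, z ∈ W' ↔ z ∈ w ∧ (z ∈ B ∨ z = B)) ∧ (∀ z, z ∈ Y' ↔ z ∈ Y ∧ z ∈ B) ∧
      PZ δ μ κ G k W' Y'

private theorem vz_iff (δ μ κ : Ordinal.{u}) (G w Y : ZFSet.{u}) :
    Val δ μ κ G w Y ↔ VZ δ μ κ G μ.toZFSet κ.toZFSet w Y := by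
  unfold Val VZ
  refine and_congr (cv_iff μ w) (and_congr ?_ ?_)
  · constructor
    · intro h z hz
      exact ZFSet.mem_sUnion.1 (h hz)
    · intro h z hz
      exact ZFSet.mem_sUnion.2 (h z hz)
  · constructor
    · intro h B hB hBo hBZ
      obtain ⟨b, rfl⟩ : ∃ b : Ordinal.{u}, B = b.toZFSet := ⟨B.rank, hBo.toZFSet_rank_eq.symm⟩
      refine ⟨w ∩ (succ b).toZFSet, Y ∩ b.toZFSet, fun z => ?_, fun z => ZFSet.mem_inter,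
        (pz_iff δ μ κ G _ _).1 (h b hB ((bz_iff w b).2 hBZ))⟩
      rw [ZFSet.mem_inter, Order.succ_eq_add_one, toZFSet_add_one, ZFSet.mem_insert_iff]
      tauto
    · intro h b hb hbn
      obtain ⟨W', Y', h1, h2, h3⟩ := h b.toZFSet hb (ZFSet.isOrdinal_toZFSet _)
        ((bz_iff w b).1 hbn)
      have e1 : W' = w ∩ (succ b).toZFSet := by
        ext z
        rw [h1, ZFSet.mem_inter, Order.succ_eq_add_one, toZFSet_add_one, ZFSet.mem_insert_iff]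
        tauto
      have e2 : Y' = Y ∩ b.toZFSet := by
        ext z
        rw [h2, ZFSet.mem_inter]
      rw [← e1, ← e2]
      exact (pz_iff δ μ κ G _ _).2 h3

private theorem vz_dz (h0 : T_LOP.{u}) (h1 : T_LFW.{u}) (h2 : T_FS.{u}) (δ μ κ : Ordinal.{u})
    {G : ZFSet.{u}} (hG : OD G) :
    DZ.{u} fun v => VZ δ μ κ G (v 0) (v 1) (v 2) (v 3) := by
  refine DZ.and (cv_dz 0 2) (DZ.and ?_ ?_)
  · exact DZ.allMem 3 (DZ.exMem 3 (DZ.mem 1 0))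
  · refine DZ.allMem (R := fun B v => B.IsOrdinal → BZ (v 2) B →
      ∃ W' Y', (∀ z, z ∈ W' ↔ z ∈ v 2 ∧ (z ∈ B ∨ z = B)) ∧ (∀ z, z ∈ Y' ↔ z ∈ v 3 ∧ z ∈ B) ∧
        PZ δ μ κ G (v 1) W' Y') 2 ?_
    refine (DZ.ord 0).imp (DZ.imp ?_ ?_)
    · refine DZ.exMem (R := fun c v => ∀ b ∈ v 0, b ∈ v 3 → b ∈ c ∨ b = c) 0 ?_
      exact DZ.allMem 1 ((DZ.mem 0 5).imp ((DZ.mem 0 1).or (DZ.eq 0 1)))
    · refine DZ.ex (R := fun W' v => ∃ Y', (∀ z, z ∈ W' ↔ z ∈ v 3 ∧ (z ∈ v 0 ∨ z = v 0)) ∧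
        (∀ z, z ∈ Y' ↔ z ∈ v 4 ∧ z ∈ v 0) ∧ PZ δ μ κ G (v 2) W' Y') ?_
      refine DZ.ex (R := fun Y' v => (∀ z, z ∈ v 0 ↔ z ∈ v 4 ∧ (z ∈ v 1 ∨ z = v 1)) ∧
        (∀ z, z ∈ Y' ↔ z ∈ v 5 ∧ z ∈ v 1) ∧ PZ δ μ κ G (v 3) (v 0) Y') ?_
      refine DZ.and (DZ.all ((DZ.mem 0 2).iff ((DZ.mem 0 6).and ((DZ.mem 0 3).or (DZ.eq 0 3)))))
        (DZ.and (DZ.all ((DZ.mem 0 1).iff ((DZ.mem 0 7).and (DZ.mem 0 3)))) ?_)
      exact (pz_dz h0 h1 h2 δ μ κ hG).ren fun n => if n = 0 then 4 else if n = 1 then 1 else 0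

private theorem val_dz (h0 : T_LOP.{u}) (h1 : T_LFW.{u}) (h2 : T_FS.{u}) (δ μ κ : Ordinal.{u})
    {G : ZFSet.{u}} (hG : OD G) : DZ.{u} fun v => Val δ μ κ G (v 0) (v 1) := by
  refine DZ.congr (P := fun v => VZ δ μ κ G μ.toZFSet κ.toZFSet (v 0) (v 1)) ?_
    fun v => vz_iff δ μ κ G (v 0) (v 1)
  have a1 : DZ.{u} fun v => VZ δ μ κ G μ.toZFSet (v 0) (v 1) (v 2) :=
    DZ.od (R := fun m v => VZ δ μ κ G m (v 0) (v 1) (v 2)) (OD.ordinal μ) (vz_dz h0 h1 h2 δ μ κ hG)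
  exact DZ.od (R := fun k v => VZ δ μ κ G μ.toZFSet k (v 0) (v 1)) (OD.ordinal κ) a1

theorem pf_VDO (h0 : HD.PRK.T_LOP.{u}) (h1 : HD.PRK.T_LFW.{u}) (h2 : T_FS.{u}) : T_VDO.{u} := by
  intro δ μ κ G hG
  have hpow : OD (ZFSet.powerset κ.toZFSet) := by
    refine OD.of_mem (P := fun v => v 0 ⊆ κ.toZFSet) ?_ fun v => ?_
    · exact DZ.od (R := fun b v => v 0 ⊆ b) (OD.ordinal κ) (Loc.sub 1 0).dz
    · rw [ZFSet.mem_powerset]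
  have hprod : OD (ZFSet.prod (ZFSet.powerset κ.toZFSet) (ZFSet.powerset κ.toZFSet)) :=
    OD.of_dz (DZ.od (R := fun b v => v 0 = ZFSet.prod b b) hpow (loc_prod 1 0 0).dz)
  refine Pool.Agent.H45.NF.od_sep hprod ?_
  refine DZ.ex (R := fun w v => ∃ Y, v 0 = ZFSet.pair w Y ∧ Val δ μ κ G w Y) ?_
  refine DZ.ex (R := fun Y v => v 1 = ZFSet.pair (v 0) Y ∧ Val δ μ κ G (v 0) Y) ?_
  refine DZ.and (loc_pair 2 1 0).dz ?_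
  exact (val_dz h0 h1 h2 δ μ κ hG).ren fun n => if n = 0 then 1 else 0

end Pool.Agent.H25.PRP
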